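import Mathlib

set_option autoImplicit false
set_option maxHeartbeats 400000

namespace Pool.Agent.Results.MP_3790b3_al.Letterwise

/-- The action of `G` on words with the restriction maps `res` is a self-similar action. -/
def SelfSimilar {X G : Type} [Group G] [MulAction G (List X)] (res : G → List X → G) : Prop :=
  FaithfulSMul G (List X) ∧ (∀ (g : G) (u v : List X), g • (u ++ v) = g • u ++ res g u • v) ∧
    (∀ g u v, res g (u ++ v) = res (res g u) v) ∧
    (∀ g h u, res (g * h) u = res g (h • u) * res h u) ∧
    (∀ g : G, g • ([] : List X) = []) ∧ (∀ g, res g [] = g) ∧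
    ∀ (g : G) (u : List X), (g • u).length = u.length

/-- Finite propagation of the Zappa-Szep product. -/
def FiniteProp {X G : Type} [Group G] [MulAction G (List X)] (res : G → List X → G) : Prop :=
  ∀ g h : G, ∃ x : List X → G, x [] = 1 ∧
    (Set.range fun w => (x (g • w))⁻¹ * res g w * x w).Finite ∧
    (Set.range fun w => (x (h • w))⁻¹ * res h w * x w).Finite

abbrev F := ZMod 2
abbrev V := ℕ → F
abbrev G0 := Multiplicative V

instance : MulAction G0 (List F) where
  smul g w := w.mapIdx fun i a => g.toAdd i + a
  one_smul w := by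
    change List.mapIdx _ w = w
    apply List.ext_getElem <;> simp
  mul_smul g h w := by
    change List.mapIdx _ w = List.mapIdx _ (List.mapIdx _ w)
    apply List.ext_getElem <;> simp [add_assoc]

theorem smul_def (g : G0) (w : List F) : g • w = w.mapIdx fun i a => g.toAdd i + a := rfl

def res (g : G0) (w : List F) : G0 := Multiplicative.ofAdd fun i => g.toAdd (i + w.length)

theorem ss : SelfSimilar res := by
  refine ⟨⟨fun {g h} k => ?_⟩, fun g u v => ?_, fun g u v => ?_, fun g h u => ?_, fun _ => rfl,
    fun _ => rfl, fun g u => by simp [smul_def]⟩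
  · refine Multiplicative.toAdd.injective (funext fun i => ?_)
    have := congrArg (fun w => w[i]?) (k (List.replicate (i + 1) 0))
    simpa [smul_def] using this
  · simp [smul_def, List.mapIdx_append, res]
  · simp [res, add_assoc, add_comm u.length]
  · refine Multiplicative.toAdd.injective (funext fun i => ?_)
    simp [res, smul_def]

open Classical in
theorem nfs : ¬ ∀ g : G0, (Set.range (res g)).Finite := by
  intro h
  refine Set.infinite_of_injective_forall_mem
    (f := fun n : ℕ => res (Multiplicative.ofAdd fun i => if ∃ t, t * t = i then 1 else 0)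
      (List.replicate (n * n) 0)) ?_ (fun n => Set.mem_range_self _) (h _)
  refine Function.Injective.of_lt_imp_ne fun n m hnm k => ?_
  have h1 := congrFun (congrArg Multiplicative.toAdd k) (2 * n + 1)
  simp only [res, toAdd_ofAdd, List.length_replicate] at h1
  rw [if_pos ⟨n + 1, by ring⟩, if_neg (Nat.not_exists_sq (m := m) (by omega) (by nlinarith))] at h1
  exact one_ne_zero h1

def tr (n : ℕ) : V →ₗ[F] V where
  toFun f i := if i < n then f i else 0
  map_add' f g := by ext i; by_cases h : i < n <;> simp [h]
  map_smul' c f := by ext i; by_cases h : i < n <;> simp [h]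

theorem exq (g h : V) : ∃ (n : ℕ) (q : V →ₗ[F] V), q (tr n g) = g ∧ q (tr n h) = h := by
  let W := Submodule.span F ({g, h} : Set V)
  have : Module.Finite F W := Module.Finite.span_of_finite F (Set.toFinite _)
  have : Finite W := Module.finite_of_finite F
  have h1 : ∀ v : W, ∃ i, v ≠ 0 → v.1 i ≠ 0 := fun v => by
    by_contra! k
    exact (k 0).1 (Subtype.ext (funext fun i => (k i).2))
  choose f hf using h1
  obtain ⟨n, hn⟩ := (Set.finite_range f).bddAbove
  obtain ⟨q, hq⟩ := ((tr (n + 1)).comp W.subtype).exists_leftInverse_of_injective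
    (LinearMap.ker_eq_bot'.2 fun v hv => by
      by_contra k
      have := congrFun hv (f v)
      have h2 : f v ≤ n := hn ⟨v, rfl⟩
      exact hf v k (by simpa [tr, h2] using this))
  exact ⟨n + 1, W.subtype.comp q,
    congrArg Subtype.val (LinearMap.congr_fun hq ⟨g, Submodule.subset_span (by simp)⟩),
    congrArg Subtype.val (LinearMap.congr_fun hq ⟨h, Submodule.subset_span (by simp)⟩)⟩

def xx (n : ℕ) (q : V →ₗ[F] V) (w : List F) : G0 :=
  if n < w.length then res (.ofAdd (q (tr n fun i => w.getD i 0))) w else 1

theorem fin (n : ℕ) (q : V →ₗ[F] V) (g : G0) (hg : q (tr n g.toAdd) = g.toAdd) :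
    (Set.range fun w => (xx n q (g • w))⁻¹ * res g w * xx n q w).Finite := by
  refine (((List.finite_length_le F n).image (res g)).insert 1).subset ?_
  rintro - ⟨w, rfl⟩
  have hl : (g • w).length = w.length := ss.2.2.2.2.2.2 g w
  by_cases h : n < w.length
  · left
    have h1 : tr n (fun i => (g • w).getD i 0) = tr n g.toAdd + tr n fun i => w.getD i 0 := by
      ext i
      by_cases hi : i < n
      · simp [tr, hi, smul_def, List.getElem?_eq_getElem (hi.trans h)]
      · simp [tr, hi]
    refine Multiplicative.toAdd.injective (funext fun i => ?_)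
    simp only [xx, hl, h, if_true, h1, map_add, hg]
    simp only [res, hl, toAdd_mul, toAdd_inv, toAdd_ofAdd, toAdd_one, Pi.add_apply, Pi.neg_apply,
      Pi.zero_apply]
    ring
  · right
    exact ⟨w, not_lt.1 h, by simp [xx, hl, h]⟩

theorem result : ∃ (X G : Type) (_ : Finite X) (_ : Group G) (_ : MulAction G (List X))
    (res : G → List X → G),
    SelfSimilar res ∧ (¬ ∀ g, (Set.range (res g)).Finite) ∧ FiniteProp res := by
  refine ⟨F, G0, inferInstance, inferInstance, inferInstance, res, ss, nfs, fun g h => ?_⟩
  obtain ⟨n, q, h1, h2⟩ := exq g.toAdd h.toAdd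
  exact ⟨xx n q, by simp [xx], fin n q g h1, fin n q h h2⟩

end Pool.Agent.Results.MP_3790b3_al.Letterwise
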